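import Pool.Agent.H12.UCR.Stmts

/-!
# MP_e822af, board `ucr`, row NRM
-/

set_option autoImplicit false

namespace Pool.UCR

theorem nrm_thm : NRMS := by
  intro p L a j
  unfold S
  rw [norm_mul, norm_inv, Complex.norm_natCast]
  have h : ‖∑ l ∈ Finset.range L, Complex.exp (2 * Real.pi * Complex.I *
      ((j : ℂ) * a * (p : ℂ) ^ l / ((p : ℂ) ^ L - 1)))‖ ≤ L := by
    refine (norm_sum_le _ _).trans ?_
    have h1 : ∀ l ∈ Finset.range L, ‖Complex.exp (2 * Real.pi * Complex.I *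
        ((j : ℂ) * a * (p : ℂ) ^ l / ((p : ℂ) ^ L - 1)))‖ ≤ 1 := by
      intro l _
      have h2 : (2 * Real.pi * Complex.I * ((j : ℂ) * a * (p : ℂ) ^ l / ((p : ℂ) ^ L - 1))) =
          ((2 * Real.pi * ((j : ℝ) * a * (p : ℝ) ^ l / ((p : ℝ) ^ L - 1)) : ℝ) : ℂ) * Complex.I := by
        push_cast
        ring
      rw [h2, Complex.norm_exp_ofReal_mul_I]
    calc _ ≤ ∑ l ∈ Finset.range L, (1 : ℝ) := Finset.sum_le_sum h1
      _ = L := by simp
  rcases Nat.eq_zero_or_pos L with h0 | h0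
  · subst h0
    simp
  · have h1 : (0 : ℝ) < L := by exact_mod_cast h0
    calc _ ≤ (L : ℝ)⁻¹ * L := mul_le_mul_of_nonneg_left h (by positivity)
      _ = 1 := inv_mul_cancel₀ h1.ne'

end Pool.UCR
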