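import Pool.Agent.H26.UCR.ATO
import Pool.Agent.H24.UCR.AVG
import Pool.Agent.H55.UCR.BDD
import Pool.Agent.H54.UCR.BWD
import Pool.Agent.H99.UCR.CPT
import Pool.Agent.H51.UCR.CTF
import Pool.Agent.H3.UCR.CVX
import Pool.Agent.H31.UCR.DNS
import Pool.Agent.H22.UCR.FWD
import Pool.Agent.H62.UCR.INJ
import Pool.Agent.H18.UCR.NBH
import Pool.Agent.H12.UCR.NRM
import Pool.Agent.H74.UCR.ORB
import Pool.Agent.H76.UCR.REP
import Pool.Agent.H91.UCR.TWO
import Pool.Agent.H31.UCR.WYC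
import Pool.Agent.H93.UCR.WYL

/-!
# MP_e822af: the criterion and the dichotomy
-/

set_option autoImplicit false

open MeasureTheory Filter Topology

namespace Pool.UCR

theorem nbh_all : NBHS := nbh_thm cpt_thm ctf_thm inj_thm

theorem dns_all : DNSS := dns_thm nbh_all orb_thm avg_thm (cvx_thm nrm_thm rep_thm two_thm)

theorem ucr_main (p q : ℕ) (hp : 2 ≤ p) (hq : 2 ≤ q) :
    (Residual p q ↔ Crit p q) ∧ (¬ Crit p q → Bad p q) :=
  ⟨⟨fwd_thm cpt_thm ctf_thm nbh_all orb_thm dns_all wyl_thm p q hp hq,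
    bwd_thm cpt_thm ctf_thm nbh_all orb_thm dns_all wyc_thm ato_thm p q hp hq⟩,
    bdd_thm cpt_thm ctf_thm nbh_all orb_thm dns_all p q hp hq⟩

end Pool.UCR
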