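import Pool.Agent.H12.UCR.Stmts4

/-!
# MP_e822af, board `ucr`, row DN2
-/

set_option autoImplicit false

open MeasureTheory Filter Topology

namespace Pool.UCR

theorem dn2b_norm {p : ℕ} (μ : PP p) (j : ℕ) : ‖fc μ j‖ ≤ 1 := by
  unfold fc
  have h := norm_integral_le_of_norm_le_const (μ := ((μ.1 : ProbabilityMeasure UnitAddCircle) :
    Measure UnitAddCircle)) (f := fun x => fourier (j : ℤ) x) (C := 1)
    (Eventually.of_forall fun x => by rw [fourier_apply]; exact (Circle.norm_coe _).le)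
  simpa using h

theorem dn2b_thm (h1 : NBHS) (h2 : CNVS) (h3 : KAPS) (h4 : DECS) : DN2S := by
  intro p q hp hq hMI W hW hne
  obtain ⟨μ, hμ⟩ := hne
  obtain ⟨m, η, hη, hnb⟩ := h1 p μ W hW hμ
  have hm8 : (0 : ℝ) < 7 * m + 8 := by positivity
  obtain ⟨s, hs⟩ : ∃ s : ℝ, s = min (1 / 2) (η / (7 * m + 8)) := ⟨_, rfl⟩
  have hs0 : 0 < s := by
    rw [hs]
    exact lt_min (by norm_num) (by positivity)
  have hs1 : s < 1 := by
    rw [hs]
    exact (min_le_left _ _).trans_lt (by norm_num)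
  have hs2 : s * (7 * m + 8) ≤ η := by
    rw [hs]
    calc min (1 / 2) (η / (7 * m + 8)) * (7 * m + 8) ≤ η / (7 * m + 8) * (7 * m + 8) :=
          mul_le_mul_of_nonneg_right (min_le_right _ _) hm8.le
      _ = η := div_mul_cancel₀ _ hm8.ne'
  obtain ⟨κ, hκ1, hκ2⟩ := h3 p s hp hs0.le hs1.le
  obtain ⟨ν, hν⟩ := h2 p μ κ
  refine ⟨ν, hnb ν ?_, ?_⟩
  · intro j hj
    have e : fc ν j - fc μ j = fc μ j * (fc κ j - 1) := by
      rw [hν]
      ring
    have hj' : (j : ℝ) ≤ m := by exact_mod_cast hj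
    rw [e, norm_mul]
    calc ‖fc μ j‖ * ‖fc κ j - 1‖ ≤ 1 * (7 * j * s) :=
          mul_le_mul (dn2b_norm μ j) (hκ2 j) (norm_nonneg _) zero_le_one
      _ < η := by nlinarith
  · intro k hk
    have h5 := h4 p q s κ hp hq hMI hs0 hs1 hκ1 k hk
    rw [tendsto_zero_iff_norm_tendsto_zero]
    refine squeeze_zero (fun _ => norm_nonneg _) (fun N => ?_) h5
    unfold Av
    rw [norm_mul, norm_inv, Complex.norm_natCast]
    refine mul_le_mul_of_nonneg_left ?_ (by positivity)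
    refine (norm_sum_le _ _).trans (Finset.sum_le_sum fun n _ => ?_)
    rw [hν, norm_mul]
    calc ‖fc μ (k * q ^ n)‖ * ‖fc κ (k * q ^ n)‖ ≤ 1 * ‖fc κ (k * q ^ n)‖ :=
          mul_le_mul_of_nonneg_right (dn2b_norm μ _) (norm_nonneg _)
      _ = ‖fc κ (k * q ^ n)‖ := one_mul _

end Pool.UCR
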