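import Pool.Agent.H12.UCR.Asm
import Pool.Agent.H27.UCR.WEY
import Pool.Agent.H24.UCR.DVG
import Pool.Agent.H51.UCR.PHN
import Pool.Agent.H14.UCR.SBU
import Pool.Agent.H41.UCR.FJX
import Pool.Agent.H1.UCR.SUB
import Pool.Agent.H1.UCR.DEC
import Pool.Agent.H16.UCR.KAP
import Pool.Agent.H21.UCR.CNV
import Pool.Agent.H12.UCR.DN2
import Pool.Agent.H54.UCR.TRO
import Pool.Agent.H19.UCR.LPT
import Pool.Agent.H38.UCR.IRR

/-!
# MP_e822af: the criterion and the dichotomy with generic divergence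
-/

set_option autoImplicit false

open MeasureTheory Filter Topology

namespace Pool.UCR

theorem sbu_all : SBUS := sbu_thm phn_thm (tro_thm phn_thm)

theorem dec_all : DECS := dec_thm (fjx_thm phn_thm sbu_all) wey_thm irr_thm (sub_thm phn_thm)

theorem dn2_all : DN2S := dn2b_thm nbh_all cnv_thm (kap_thm inj_thm) dec_all

theorem lpt_all : LPTS := lpt_thm cpt_thm ctf_thm dn2_all

theorem ucr_main2 (p q : ℕ) (hp : 2 ≤ p) (hq : 2 ≤ q) :
    (Residual p q ↔ Crit p q) ∧ (MI p q → ¬ Crit p q → Diverge p q) :=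
  ⟨(ucr_main p q hp hq).1,
    dvg_thm cpt_thm (bdd_thm cpt_thm ctf_thm nbh_all orb_thm dns_all) lpt_all p q hp hq⟩

end Pool.UCR
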