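import Mathlib

/-!
# MP_e822af: uniformity criterion, definitions
-/

set_option autoImplicit false

open MeasureTheory Filter Topology

namespace Pool.UCR

/-- the Borel probability measures on the circle invariant under multiplication by `p`, weak-* topology -/
abbrev PP (p : ℕ) : Type := {μ : ProbabilityMeasure UnitAddCircle //
  (μ : Measure UnitAddCircle).map (fun x : UnitAddCircle => p • x) = (μ : Measure UnitAddCircle)}

/-- the Cesàro averages of the images of `μ` under `x ↦ q ^ n x` converge weak-* to Lebesgue measure -/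
def Equi (q : ℕ) (μ : ProbabilityMeasure UnitAddCircle) : Prop := ∀ f : C(UnitAddCircle, ℝ),
  Tendsto (fun N : ℕ => (N : ℝ)⁻¹ * ∑ n ∈ Finset.range N,
    ∫ x, f ((q ^ n) • x) ∂(μ : Measure UnitAddCircle)) atTop
    (𝓝 (∫ x, f x ∂(volume : Measure UnitAddCircle)))

/-- the set in question is residual (the statement of the problem for `p` and `q`) -/
def Residual (p q : ℕ) : Prop := ∃ G : Set (PP p), IsGδ G ∧ Dense G ∧ ∀ μ ∈ G,
  (∀ x : UnitAddCircle, ((μ.1 : ProbabilityMeasure UnitAddCircle) : Measure UnitAddCircle) {x} = 0) ∧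
    Equi q μ.1

/-- the mean of `e(j x)` over the orbit of the point `a / (p ^ L - 1)` under multiplication by `p` -/
noncomputable def S (p L a j : ℕ) : ℂ := (L : ℂ)⁻¹ * ∑ l ∈ Finset.range L,
  Complex.exp (2 * Real.pi * Complex.I * ((j : ℂ) * a * (p : ℂ) ^ l / ((p : ℂ) ^ L - 1)))

/-- `c` and `d` differ by less than `η` at `0, ..., m` -/
def Near (m : ℕ) (η : ℝ) (c d : ℕ → ℂ) : Prop := ∀ j ≤ m, ‖c j - d j‖ < η

/-- the mean of `c (k q ^ n)`, `n < N` -/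
noncomputable def Av (q k N : ℕ) (c : ℕ → ℂ) : ℂ := (N : ℂ)⁻¹ * ∑ n ∈ Finset.range N, c (k * q ^ n)

/-- the criterion -/
def Crit (p q : ℕ) : Prop := ∀ k : ℕ, 1 ≤ k → ∀ ε : ℝ, 0 < ε →
  ∀ L0 : ℕ, 1 ≤ L0 → ∀ a0 m0 : ℕ, ∀ η0 : ℝ, 0 < η0 →
    ∃ L1 : ℕ, 1 ≤ L1 ∧ ∃ a1 : ℕ, Near m0 η0 (S p L1 a1) (S p L0 a0) ∧
      ∃ m : ℕ, ∃ η : ℝ, 0 < η ∧ ∃ M : ℕ, ∀ L : ℕ, 1 ≤ L → ∀ a : ℕ, Near m η (S p L a) (S p L1 a1) →
        ∀ N : ℕ, M ≤ N → ‖Av q k N (S p L a)‖ ≤ ε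

/-- the `j`-th Fourier coefficient (with the sign `+`) -/
noncomputable def fc {p : ℕ} (μ : PP p) (j : ℕ) : ℂ :=
  ∫ x, fourier (j : ℤ) x ∂((μ.1 : ProbabilityMeasure UnitAddCircle) : Measure UnitAddCircle)

/-- in a nonempty open set, the averages of the coefficients of generic measures do not converge to `0` -/
def Bad (p q : ℕ) : Prop := ∃ V : Set (PP p), IsOpen V ∧ V.Nonempty ∧ ∃ k : ℕ, 1 ≤ k ∧ ∃ ε : ℝ, 0 < ε ∧
  ∃ G : Set (PP p), IsGδ G ∧ Dense G ∧ ∀ μ ∈ G, μ ∈ V → ∀ M : ℕ, ∃ N : ℕ, M ≤ N ∧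
    ε < ‖Av q k N (fc μ)‖

/-- `x` is a limit of sequences `S p L a` -/
def Apx (p : ℕ) (x : ℕ → ℂ) : Prop := ∀ m : ℕ, ∀ η : ℝ, 0 < η → ∃ L : ℕ, 1 ≤ L ∧ ∃ a < p ^ L,
  Near m η (S p L a) x

end Pool.UCR
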