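import Pool.Agent.H12.UCR.Defs

/-!
# MP_e822af, board `ucr`: statements of the rows

Rows: Props `XXXS`; deliver `theorem xxx_thm : XXXS` in `Pool/Agent/H<k>/UCR/XXX.lean`, namespace
`Pool.UCR`, needed rows as hypotheses `(h : YYYS)` in the order of the column `needs`.
-/

set_option autoImplicit false

open MeasureTheory Filter Topology

namespace Pool.UCR

/-- CPT: Mathlib has the instance `CompactSpace (ProbabilityMeasure X)`; `PP p` is closed. -/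
def CPTS : Prop := ∀ p : ℕ, CompactSpace (PP p) ∧ T2Space (PP p) ∧ BaireSpace (PP p)

/-- CTF: real and imaginary parts of `fourier j` are bounded continuous functions. -/
def CTFS : Prop := ∀ (p j : ℕ), Continuous (fun μ : PP p => fc μ j)

/-- INJ: `fc` at `-j` is the conjugate; `span_fourier_closure_eq_top`; a finite measure on the circle is
determined by the integrals of (bounded) continuous functions. -/
def INJS : Prop := ∀ (p : ℕ) (μ ν : PP p), (∀ j, fc μ j = fc ν j) → μ = ν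

/-- NBH (from CPT, CTF, INJ): the complement of `W` is compact and is covered by the directed family of
the open sets `{ν | ∃ j ≤ n, 1 / (n + 1) < ‖fc ν j - fc μ j‖}`. -/
def NBHS : Prop := ∀ (p : ℕ) (μ : PP p) (W : Set (PP p)), IsOpen W → μ ∈ W →
  ∃ m : ℕ, ∃ η : ℝ, 0 < η ∧ ∀ ν : PP p, Near m η (fc ν) (fc μ) → ν ∈ W

/-- ORB: `μ = L⁻¹ ∑_{l < L} δ_{p ^ l x}`, `x = a / (p ^ L - 1)`, `p ^ L x = x` in the circle. -/
def ORBS : Prop := ∀ p L a : ℕ, 2 ≤ p → 1 ≤ L → ∃ μ : PP p, ∀ j, fc μ j = S p L a j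

/-- AVG: `w a = μ (image of [a / p ^ L, (a + 1) / p ^ L))`. By invariance
`fc μ j = L⁻¹ ∑_{l < L} ∫ e (j p ^ l x)`; on that interval `|x - a / (p ^ L - 1)| ≤ p ^ (-L)`, and
`|e (j p ^ l x) - e (j p ^ l y)| ≤ 2 π j p ^ l |x - y|`, `∑_{l < L} p ^ (l - L) ≤ 1`. -/
def AVGS : Prop := ∀ p L : ℕ, 2 ≤ p → 1 ≤ L → ∀ μ : PP p, ∃ w : ℕ → ℝ, (∀ a, 0 ≤ w a) ∧
  ∑ a ∈ Finset.range (p ^ L), w a = 1 ∧
    ∀ j : ℕ, ‖fc μ j - ∑ a ∈ Finset.range (p ^ L), (w a : ℂ) * S p L a j‖ ≤ 7 * j / L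

/-- NRM -/
def NRMS : Prop := ∀ p L a j : ℕ, ‖S p L a j‖ ≤ 1

/-- REP: `b = a (p ^ (L r) - 1) / (p ^ L - 1)`; the summand `l` has period `L`. -/
def REPS : Prop := ∀ p L r a : ℕ, 2 ≤ p → 1 ≤ L → 1 ≤ r → a < p ^ L →
  ∃ b < p ^ (L * r), ∀ j, S p (L * r) b j = S p L a j

/-- TWO: `P = p ^ L`, `α = a / (P - 1)`, `β = b / (P - 1)` in `[0, 1]`,
`c = a P ^ n2 (P ^ n1 - 1) / (P - 1) + b (P ^ n2 - 1) / (P - 1)`,
`x = c / (P ^ (n1 + n2) - 1) = α + (β - α) (P ^ n2 - 1) / (P ^ (n1 + n2) - 1)`, so `|x - α| ≤ P ^ (-n1)`;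
`y = P ^ n1 x - (integer) = β + (α - β) (P ^ n1 - 1) / (P ^ (n1 + n2) - 1)`, so `|y - β| ≤ P ^ (-n2)`. The
first `L n1` points of the orbit of `x` are near those of `α`, the other ones near those of `β`;
`|e (j p ^ l x) - e (j p ^ l α)| ≤ 2 π j p ^ (l - L n1)`, and the sum of these is at most `2 π j`. -/
def TWOS : Prop := ∀ p L n1 n2 a b : ℕ, 2 ≤ p → 1 ≤ L → 1 ≤ n1 → 1 ≤ n2 → a < p ^ L → b < p ^ L →
  ∃ c < p ^ (L * (n1 + n2)), ∀ j : ℕ,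
    ‖S p (L * (n1 + n2)) c j - ((n1 : ℂ) * S p L a j + (n2 : ℂ) * S p L b j) / ((n1 : ℂ) + n2)‖ ≤
      13 * j / (L * (n1 + n2))

/-- CVX (from NRM, REP, TWO): approximate `x` by `S p L a`, `y` by `S p L' b`; by REP `L = L'`; take
`n1 / (n1 + n2)` near `t` and `n1 + n2` large. -/
def CVXS : Prop := ∀ p : ℕ, 2 ≤ p → Convex ℝ {x : ℕ → ℂ | Apx p x}

/-- DNS (from NBH, ORB, AVG, CVX): `W` contains a neighbourhood `(m, η)` of some `μ`; take `L` large in AVG;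
`∑ w a • S p L a` is in the convex set of CVX (`Convex.sum_mem`). -/
def DNSS : Prop := ∀ (p : ℕ), 2 ≤ p → ∀ W : Set (PP p), IsOpen W → W.Nonempty →
  ∃ L a : ℕ, 1 ≤ L ∧ ∃ μ ∈ W, ∀ j, fc μ j = S p L a j

/-- WYC: uniform approximation by trigonometric polynomials (`span_fourier_closure_eq_top`);
`fc μ (k q ^ n) = ∫ fourier k (q ^ n • x)`; negative frequencies by conjugation; frequency `0` is trivial. -/
def WYCS : Prop := ∀ (p q : ℕ) (μ : PP p),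
  (∀ k : ℕ, 1 ≤ k → Tendsto (fun N : ℕ => Av q k N (fc μ)) atTop (𝓝 0)) → Equi q μ.1

/-- WYL: real and imaginary part of `fourier k` -/
def WYLS : Prop := ∀ (p q : ℕ) (μ : PP p), Equi q μ.1 →
  ∀ k : ℕ, 1 ≤ k → Tendsto (fun N : ℕ => Av q k N (fc μ)) atTop (𝓝 0)

/-- ATO: let `μ {x} = c > 0`. Then `μ {p ^ i x} ≥ c` for all `i`, so `p ^ i x = p ^ j x` for some `i < j`, and
`D x = 0`, `D = p ^ j - p ^ i`. Let `f ≥ 0` be continuous with `f = 1` on the finite set `F = {y | D y = 0}` and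
`∫ f < c` (for instance `|m⁻¹ ∑_{i < m} e (i D y)|²` with integral `1 / m`). As `q ^ n F ⊆ F`, all
`∫ f (q ^ n y) dμ ≥ c`. -/
def ATOS : Prop := ∀ (p q : ℕ) (μ : PP p), 2 ≤ p → Equi q μ.1 →
  ∀ x : UnitAddCircle, ((μ.1 : ProbabilityMeasure UnitAddCircle) : Measure UnitAddCircle) {x} = 0

/-- FWD (from CPT, CTF, NBH, ORB, DNS, WYL). `G` as in `Residual`, `V = {μ | Near m0 η0 (fc μ) (S p L0 a0)}` open
(CTF) and nonempty (ORB); `F M = {μ | ∀ N ≥ M, ‖Av q k N (fc μ)‖ ≤ ε}` is closed and `G ⊆ ⋃ M, F M`; `V` open in a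
Baire space, so some `F M ∩ V` has an interior point; by DNS it contains the orbit of some `(L1, a1)` in the
interior, then NBH and ORB. -/
def FWDS : Prop := ∀ p q : ℕ, 2 ≤ p → 2 ≤ q → Residual p q → Crit p q

/-- BWD (from CPT, CTF, NBH, ORB, DNS, WYC, ATO). `U k ε = ⋃ M, interior (F M)` is open, and dense: in a nonempty
open `W` there is an orbit measure `μ0` (DNS) and `(m0, η0)` (NBH); by Crit we have `(L1, a1)`, its orbit measure is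
in `W`, and `{μ | Near m η (fc μ) (S p L1 a1)}` is open and contained in `F M` since orbit measures are dense in it
and `F M` is closed. `G = ⋂ U k (1 / (i + 1))`, `BaireSpace`. -/
def BWDS : Prop := ∀ p q : ℕ, 2 ≤ p → 2 ≤ q → Crit p q → Residual p q

/-- BDD (from CPT, CTF, NBH, ORB, DNS). Take `k, ε, L0, a0, m0, η0` from the negation of Crit and `V` as in FWD; the
sets `{μ ∈ V | ∃ N ≥ M, ε < ‖Av q k N (fc μ)‖} ∪ (closure V)ᶜ` are open and dense. -/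
def BDDS : Prop := ∀ p q : ℕ, 2 ≤ p → 2 ≤ q → ¬ Crit p q → Bad p q

/-- INV: invariance -/
def INVS : Prop := ∀ (p : ℕ) (μ : PP p) (i j : ℕ), fc μ (j * p ^ i) = fc μ j

/-- POW. `Q = q ^ m`, `c = fc μ`, `g x = T⁻¹ ∑_{t < T} e (k Q ^ t x)`,
`I N = N⁻¹ ∑_{n < N} ∫ g (Q ^ n x) dμ = T⁻¹ ∑_{t < T} N⁻¹ ∑_{n < N} c (k Q ^ (t + n))`, so
`|Av Q k N c - I N| ≤ 2 T / N`. By Cauchy-Schwarz
`|I N|² ≤ N⁻¹ ∑_{n < N} ∫ |g (Q ^ n x)|² dμ ≤ N⁻¹ ∑_{n < m N} ∫ |g (q ^ n x)|² dμ`, which is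
`m T⁻² ∑_{s, t < T} (mean over n < m N of ∫ e (k (Q ^ t - Q ^ s) q ^ n x) dμ)` and tends to `m / T` by hypothesis.
So `limsup |Av Q k N c|² ≤ m / T` for every `T`. -/
def POWS : Prop := ∀ (p q m : ℕ) (μ : PP p), 2 ≤ q → 1 ≤ m →
  (∀ k : ℕ, 1 ≤ k → Tendsto (fun N : ℕ => Av q k N (fc μ)) atTop (𝓝 0)) →
  ∀ k : ℕ, 1 ≤ k → Tendsto (fun N : ℕ => Av (q ^ m) k N (fc μ)) atTop (𝓝 0)

/-- POC. `Av q k (m N) c = m⁻¹ ∑_{r < m} Av (q ^ m) (k q ^ r) N c`, and `|c| ≤ 1`. -/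
def POCS : Prop := ∀ (q m : ℕ) (c : ℕ → ℂ), (∀ j, ‖c j‖ ≤ 1) → 2 ≤ q → 1 ≤ m →
  (∀ k : ℕ, 1 ≤ k → Tendsto (fun N : ℕ => Av (q ^ m) k N c) atTop (𝓝 0)) →
  ∀ k : ℕ, 1 ≤ k → Tendsto (fun N : ℕ => Av q k N c) atTop (𝓝 0)

/-- EQV (from WYC, WYL, INV, POW, POC). `Av (p ^ i * q ^ m) k N (fc μ) = Av (q ^ m) k N (fc μ)` by INV. -/
def EQVS : Prop := ∀ p q i m : ℕ, 2 ≤ p → 2 ≤ q → 1 ≤ m → ∀ μ : PP p,
  Equi q μ.1 ↔ Equi (p ^ i * q ^ m) μ.1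

end Pool.UCR
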