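import Pool.Agent.H12.UCR.Stmts

/-!
# MP_e822af, board `ucr`: second theorem (the set is the same for all sequences `r p ^ (i n) q ^ (m n)`)
-/

set_option autoImplicit false

open MeasureTheory Filter Topology

namespace Pool.UCR

/-- the Cesàro averages of the images of `μ` under `x ↦ c n x` converge weak-* to Lebesgue measure -/
def EquiSeq (c : ℕ → ℕ) (μ : ProbabilityMeasure UnitAddCircle) : Prop := ∀ f : C(UnitAddCircle, ℝ),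
  Tendsto (fun N : ℕ => (N : ℝ)⁻¹ * ∑ n ∈ Finset.range N,
    ∫ x, f ((c n) • x) ∂(μ : Measure UnitAddCircle)) atTop
    (𝓝 (∫ x, f x ∂(volume : Measure UnitAddCircle)))

/-- the set `𝒢''` of the problem for the sequence `c` is residual -/
def ResidualSeq (p : ℕ) (c : ℕ → ℕ) : Prop := ∃ G : Set (PP p), IsGδ G ∧ Dense G ∧ ∀ μ ∈ G,
  (∀ x : UnitAddCircle, ((μ.1 : ProbabilityMeasure UnitAddCircle) : Measure UnitAddCircle) {x} = 0) ∧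
    EquiSeq c μ.1

/-- the mean of `fc μ (k c n)`, `n < N` -/
noncomputable def AvS {p : ℕ} (μ : PP p) (c : ℕ → ℕ) (k N : ℕ) : ℂ :=
  (N : ℂ)⁻¹ * ∑ n ∈ Finset.range N, fc μ (k * c n)

/-- WYG: as WYC (`Pool/Agent/H31/UCR/WYC.lean`) and WYL (`Pool/Agent/H93/UCR/WYL.lean`) with `c n` for `q ^ n`. -/
def WYGS : Prop := ∀ (p : ℕ) (c : ℕ → ℕ) (μ : PP p), EquiSeq c μ.1 ↔
  ∀ k : ℕ, 1 ≤ k → Tendsto (fun N : ℕ => AvS μ c k N) atTop (𝓝 0)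

/-- RMU. `g x = T⁻¹ ∑_{t < T} e (k q ^ t x)`, `I N = N⁻¹ ∑_{n < N} ∫ g (q ^ n x) dμ`,
`|Av q k N (fc μ) - I N| ≤ 2 T / N`. By Cauchy-Schwarz `|I N|² ≤ N⁻¹ ∑_{n < N} ∫ |g (q ^ n x)|² dμ
≤ N⁻¹ ∑_{n < N} ∫ H (q ^ n x) dμ`, `H x = ∑_{j < r} |g (x + j / r)|² = r T⁻² ∑_{s, t < T, r ∣ k (q ^ t - q ^ s)}
e (k (q ^ t - q ^ s) x)`, and by hypothesis the right hand side tends to `r / T` (the terms `s = t`). So
`limsup |Av q k N (fc μ)|² ≤ r / T` for every `T`. (As POW, `Pool/Agent/H93/UCR/POW.lean`.) -/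
def RMUS : Prop := ∀ (p q r : ℕ) (μ : PP p), 2 ≤ q → 1 ≤ r →
  (∀ k : ℕ, 1 ≤ k → Tendsto (fun N : ℕ => Av q (r * k) N (fc μ)) atTop (𝓝 0)) →
  ∀ k : ℕ, 1 ≤ k → Tendsto (fun N : ℕ => Av q k N (fc μ)) atTop (𝓝 0)

/-- EQG (from INV, POW, POC, WYG, RMU). `fc μ (k * (r * p ^ (i n) * q ^ (m * n))) = fc μ (k * r * (q ^ m) ^ n)`. -/
def EQGS : Prop := ∀ p q r m : ℕ, 2 ≤ p → 2 ≤ q → 1 ≤ r → 1 ≤ m → ∀ i : ℕ → ℕ, ∀ μ : PP p,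
  EquiSeq (fun n => r * p ^ (i n) * q ^ (m * n)) μ.1 ↔ EquiSeq (fun n => q ^ n) μ.1

end Pool.UCR
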