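import Pool.Agent.H12.UCR.Stmts

/-!
# MP_e822af, board `ucr`: third theorem (no rate), statements of the rows

For every `ρ → 0` and every `Φ` the generic invariant measure has, for every `k ≥ 1`, infinitely many `N0` with
`|Av q k N| > ρ N` for all `N0 ≤ N ≤ Φ N0`.
-/

set_option autoImplicit false

open MeasureTheory Filter Topology

namespace Pool.UCR

/-- CES: the averages of an eventually periodic sequence converge: `∑_{n < N} c n - N A` is bounded for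
`A = P⁻¹ ∑_{n < P} c (n0 + n)` (induction `N → N + P`). -/
def CESS : Prop := ∀ (c : ℕ → ℂ) (n0 P : ℕ), 1 ≤ P → (∀ n, n0 ≤ n → c (n + P) = c n) →
  ∃ A : ℂ, Tendsto (fun N : ℕ => (N : ℂ)⁻¹ * ∑ n ∈ Finset.range N, c n) atTop (𝓝 A)

/-- EVP: `S p L a j` depends only on `j` modulo `D = p ^ L - 1 ≥ 1`, and `q ^ n` modulo `D` is eventually periodic
(pigeonhole: `q ^ i ≡ q ^ (i + P)`, then multiply). -/
def EVPS : Prop := ∀ p q L a k : ℕ, 2 ≤ p → 1 ≤ L → ∃ n0 P : ℕ, 1 ≤ P ∧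
  ∀ n, n0 ≤ n → S p L a (k * q ^ (n + P)) = S p L a (k * q ^ n)

/-- MIX: `(1 - t) μ + t δ_0` -/
def MIXS : Prop := ∀ (p : ℕ) (μ : PP p) (t : ℝ), 0 ≤ t → t ≤ 1 → ∃ ν : PP p, ∀ j,
  fc ν j = (1 - t : ℂ) * fc μ j + t

/-- NRD (from CPT, CTF, INJ-free: NBH, DNS, CES, EVP, MIX). Open: union over `N0` of finite intersections of open
sets (CTF). Dense: in a nonempty open `W` take an orbit measure `μ0` (DNS) and `(m, η)` (NBH). By EVP and CES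
`Av q k N (fc μ0) → A`. Choose `0 < t < η / 2`, `t < 1`, with `(1 - t) A + t ≠ 0` (two values of `t` cannot both fail)
and `ν` from MIX; `ν ∈ W`, `Av q k N (fc ν) = (1 - t) Av q k N (fc μ0) + t → (1 - t) A + t ≠ 0` (for `N ≥ 1`), and
`ρ → 0`. -/
def NRDS : Prop := ∀ p q k M : ℕ, 2 ≤ p → 2 ≤ q → 1 ≤ k → ∀ ρ : ℕ → ℝ, Tendsto ρ atTop (𝓝 0) → ∀ Φ : ℕ → ℕ,
  IsOpen {μ : PP p | ∃ N0 : ℕ, M ≤ N0 ∧ ∀ N : ℕ, N0 ≤ N → N ≤ Φ N0 → ρ N < ‖Av q k N (fc μ)‖} ∧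
  Dense {μ : PP p | ∃ N0 : ℕ, M ≤ N0 ∧ ∀ N : ℕ, N0 ≤ N → N ≤ Φ N0 → ρ N < ‖Av q k N (fc μ)‖}

/-- NRT (from CPT, NRD): `BaireSpace`, countable intersection over `k, M`. -/
def NRTS : Prop := ∀ p q : ℕ, 2 ≤ p → 2 ≤ q → ∀ ρ : ℕ → ℝ, Tendsto ρ atTop (𝓝 0) → ∀ Φ : ℕ → ℕ,
  ∃ G : Set (PP p), IsGδ G ∧ Dense G ∧ ∀ μ ∈ G, ∀ k : ℕ, 1 ≤ k → ∀ M : ℕ, ∃ N0 : ℕ, M ≤ N0 ∧
    ∀ N : ℕ, N0 ≤ N → N ≤ Φ N0 → ρ N < ‖Av q k N (fc μ)‖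

end Pool.UCR
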