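import Pool.Agent.H12.UCR.Stmts

/-!
# MP_e822af, board `ucr`: stronger dichotomy (generic divergence), statements of the rows

For multiplicatively independent `p, q`: Lebesgue measure is a limit point of the averages of generic measures; so if
the criterion fails, generic measures in some open set have divergent averages.
-/

set_option autoImplicit false

open MeasureTheory Filter Topology

namespace Pool.UCR

/-- the characteristic function of a digit which is `1` with probability `s` and `0` with probability `1 - s` -/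
noncomputable def ph (s t : ℝ) : ℂ := (1 - s : ℂ) + s * Complex.exp (2 * Real.pi * Complex.I * t)

/-- multiplicative independence -/
def MI (p q : ℕ) : Prop := ∀ a b : ℕ, 0 < a → 0 < b → p ^ a ≠ q ^ b

/-- CNV: convolution, `((μ × κ).map (x + y))` -/
def CNVS : Prop := ∀ (p : ℕ) (μ κ : PP p), ∃ ν : PP p, ∀ j, fc ν j = fc μ j * fc κ j

/-- KAP (from INJ). By induction there are probability measures `κ_n` on the circle with coefficients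
`∏_{i < n} ph s (m / p ^ (i + 1))` (`κ_{n+1} = (1 - s) κ_n + s κ_n.map (· + p ^ (-(n + 1)))`). The product converges for
every `m` (`‖ph s t - 1‖ ≤ 2 π s |t|`); a cluster point `κ` (compactness of `ProbabilityMeasure UnitAddCircle`) has the
limit as coefficients. `κ` is invariant: coefficients at `p m` and `m` agree (`ph s m = 1` for integers `m`), and INJ
for `PP 1` (all probability measures). -/
def KAPS : Prop := ∀ (p : ℕ) (s : ℝ), 2 ≤ p → 0 ≤ s → s ≤ 1 → ∃ κ : PP p,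
  (∀ m n : ℕ, ‖fc κ m‖ ≤ ∏ i ∈ Finset.range n, ‖ph s ((m : ℝ) / (p : ℝ) ^ (i + 1))‖) ∧
  ∀ m : ℕ, ‖fc κ m - 1‖ ≤ 7 * m * s

/-- PHN: `‖ph s t‖² = 1 - 2 s (1 - s) (1 - cos (2 π t))`, period one, norm at most one -/
def PHNS : Prop := ∀ s t : ℝ, 0 ≤ s → s ≤ 1 →
  ‖ph s t‖ ^ 2 = 1 - 2 * s * (1 - s) * (1 - Real.cos (2 * Real.pi * t)) ∧ ‖ph s t‖ ≤ 1 ∧
  (∀ z : ℤ, ph s (t + z) = ph s t) ∧ ∀ z : ℤ, ph s z = 1

/-- TRO (from PHN). `I J = ∫_0^1 ∏_{j < J} ‖ph s (p ^ j y)‖ dy`; splitting `[0, 1]` in `p` parts, `y = (z + d) / p`: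
`I (J + 1) = ∫_0^1 (p⁻¹ ∑_{d < p} ‖ph s ((z + d) / p)‖) ∏_{j < J} ‖ph s (p ^ j z)‖ dz`, and the mean over `d` is at most
the square root of the mean of the squares, `√(1 - 2 s (1 - s))`, since `∑_d cos (2 π (z + d) / p) = 0`. -/
def TROS : Prop := ∀ (p : ℕ) (s : ℝ), 2 ≤ p → 0 ≤ s → s ≤ 1 → ∀ J : ℕ,
  ∫ y in (0 : ℝ)..1, ∏ j ∈ Finset.range J, ‖ph s ((p : ℝ) ^ j * y)‖ ≤ √(1 - 2 * s * (1 - s)) ^ J

/-- SBU (from PHN, TRO): substitution `y = p ^ u`, `du = dy / (y log p)`, `∫_1^p = (p - 1) ∫_0^1` by periodicity,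
`(p - 1) / log p ≤ 2 p`. -/
def SBUS : Prop := ∀ (p : ℕ) (s : ℝ), 2 ≤ p → 0 ≤ s → s ≤ 1 → ∀ J : ℕ,
  ∫ u in (0 : ℝ)..1, ∏ j ∈ Finset.range J, ‖ph s ((p : ℝ) ^ j * (p : ℝ) ^ u)‖ ≤
    2 * p * √(1 - 2 * s * (1 - s)) ^ J

/-- FJX (from PHN, SBU): the function `u ↦ ∏_{j < J} ‖ph s (p ^ j p ^ u)‖` has the value `1` at `0` and `1`
(`AddCircle.liftIco_continuous`). -/
def FJXS : Prop := ∀ (p : ℕ) (s : ℝ), 2 ≤ p → 0 ≤ s → s ≤ 1 → ∀ J : ℕ, ∃ F : C(UnitAddCircle, ℝ),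
  (∀ u : ℝ, 0 ≤ u → u < 1 →
    F (u : UnitAddCircle) = ∏ j ∈ Finset.range J, ‖ph s ((p : ℝ) ^ j * (p : ℝ) ^ u)‖) ∧
  ∫ x, F x ∂(volume : Measure UnitAddCircle) ≤ 2 * p * √(1 - 2 * s * (1 - s)) ^ J

/-- WEY: equidistribution of `n θ + c` (`span_fourier_closure_eq_top` and geometric sums) -/
def WEYS : Prop := ∀ (θ c : ℝ), Irrational θ → ∀ F : C(UnitAddCircle, ℝ),
  Tendsto (fun N : ℕ => (N : ℝ)⁻¹ * ∑ n ∈ Finset.range N, F (((n * θ + c : ℝ)) : UnitAddCircle)) atTop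
    (𝓝 (∫ x, F x ∂(volume : Measure UnitAddCircle)))

/-- IRR -/
def IRRS : Prop := ∀ p q : ℕ, 2 ≤ p → 2 ≤ q → MI p q → Irrational (Real.log q / Real.log p)

/-- SUB (from PHN). `x = log (k q ^ n) / log p`, `⌊x⌋ = b ≥ J`, `u = x - b`: `k q ^ n / p ^ (b - j) = p ^ j p ^ u` for
`j < J`; take `n = b` in the product bound and drop the other factors (at most one). -/
def SUBS : Prop := ∀ (p : ℕ) (s : ℝ) (κ : PP p), 2 ≤ p → 0 ≤ s → s ≤ 1 →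
  (∀ m n : ℕ, ‖fc κ m‖ ≤ ∏ i ∈ Finset.range n, ‖ph s ((m : ℝ) / (p : ℝ) ^ (i + 1))‖) →
  ∀ m J : ℕ, 1 ≤ m → (J : ℝ) ≤ Real.log m / Real.log p →
    ‖fc κ m‖ ≤ ∏ j ∈ Finset.range J, ‖ph s ((p : ℝ) ^ j * (p : ℝ) ^ (Int.fract (Real.log m / Real.log p)))‖

/-- DEC (from FJX, WEY, IRR, SUB). `log (k q ^ n) / log p = n θ + c`, so by SUB, FJX, WEY the limsup of the averages is
at most `2 p √(1 - 2 s (1 - s)) ^ J` for every `J`, and the square root is less than one. -/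
def DECS : Prop := ∀ (p q : ℕ) (s : ℝ) (κ : PP p), 2 ≤ p → 2 ≤ q → MI p q → 0 < s → s < 1 →
  (∀ m n : ℕ, ‖fc κ m‖ ≤ ∏ i ∈ Finset.range n, ‖ph s ((m : ℝ) / (p : ℝ) ^ (i + 1))‖) →
  ∀ k : ℕ, 1 ≤ k → Tendsto (fun N : ℕ => (N : ℝ)⁻¹ * ∑ n ∈ Finset.range N, ‖fc κ (k * q ^ n)‖) atTop (𝓝 0)

/-- DN2 (from NBH, CNV, KAP, DEC): convolve a measure of `W` with `κ_s`, `s` small. -/
def DN2S : Prop := ∀ (p q : ℕ), 2 ≤ p → 2 ≤ q → MI p q → ∀ W : Set (PP p), IsOpen W → W.Nonempty →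
  ∃ ν ∈ W, ∀ k : ℕ, 1 ≤ k → Tendsto (fun N : ℕ => Av q k N (fc ν)) atTop (𝓝 0)

/-- LPT (from CPT, CTF, DN2): Lebesgue measure is a limit point of the averages of generic measures -/
def LPTS : Prop := ∀ (p q : ℕ), 2 ≤ p → 2 ≤ q → MI p q → ∃ G : Set (PP p), IsGδ G ∧ Dense G ∧ ∀ μ ∈ G,
  ∀ K M : ℕ, ∃ N : ℕ, M ≤ N ∧ ∀ k : ℕ, 1 ≤ k → k ≤ K → ‖Av q k N (fc μ)‖ < 1 / ((K : ℝ) + 1)

/-- in a nonempty open set `V`, the averages of generic measures diverge, with Lebesgue measure as a limit point -/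
def Diverge (p q : ℕ) : Prop := ∃ V : Set (PP p), IsOpen V ∧ V.Nonempty ∧ ∃ k : ℕ, 1 ≤ k ∧ ∃ ε : ℝ, 0 < ε ∧
  ∃ G : Set (PP p), IsGδ G ∧ Dense G ∧ ∀ μ ∈ G, μ ∈ V →
    (∀ M : ℕ, ∃ N : ℕ, M ≤ N ∧ ε < ‖Av q k N (fc μ)‖) ∧
    ∀ K M : ℕ, ∃ N : ℕ, M ≤ N ∧ ∀ j : ℕ, 1 ≤ j → j ≤ K → ‖Av q j N (fc μ)‖ < 1 / ((K : ℝ) + 1)

/-- DVG (from CPT, BDD (`Bad`), LPT): intersect the two dense `G_δ` sets. -/
def DVGS : Prop := ∀ p q : ℕ, 2 ≤ p → 2 ≤ q → MI p q → ¬ Crit p q → Diverge p q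

end Pool.UCR
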